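import Pool.Agent.H80.G2.MAIN
import Pool.Agent.H42.G2.AVG
import Pool.Agent.H94.G2.AVU
import Pool.Agent.H74.G2.BLD
import Pool.Agent.H72.G2.CFC
import Pool.Agent.H30.G2.CMP
import Pool.Agent.H41.G2.COM
import Pool.Agent.H10.G2.CUT
import Pool.Agent.H54.G2.DEN
import Pool.Agent.H60.G2.DNS
import Pool.Agent.H46.G2.EXH
import Pool.Agent.H60.G2.FCP
import Pool.Agent.H34.G2.FCT
import Pool.Agent.H60.G2.FIX
import Pool.Agent.H10.G2.LAY
import Pool.Agent.H99.G2.LIM
import Pool.Agent.H13.G2.PIS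
import Pool.Agent.H35.G2.RNG
import Pool.Agent.H30.G2.SGN
import Pool.Agent.H60.G2.SPG
import Pool.Agent.H52.G2.STP
import Pool.Agent.H42.G2.STR
import Pool.Agent.H39.G2.TRA
import Pool.Agent.H60.G2.TRC
import Pool.Agent.H60.G2.UNM
import Pool.Agent.H30.G2.UNS
import Pool.Agent.H99.G2.ZPR

/-!
# MP_323167_an: index 2 subfactors of the II_1 factors near a factor with property Gamma

All algebras are von Neumann algebras on a separable Hilbert space `H` (`VonNeumannAlgebra H` of
Mathlib: star subalgebras of the bounded operators which are equal to their double commutant).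

* `IsII1 M`: `M` is a II_1 factor (trivial centre, infinite-dimensional, with a faithful normal
  tracial state, given by vectors: `tr ξ x = ∑ ⟨ξ n, x ξ n⟩`).
* `Gam M`: property Gamma of Murray and von Neumann.
* `Metric.hausdorffDist (bal M) (bal N)`: the Kadison-Kastler distance, the Hausdorff distance
  of the closed unit balls.
* `Ind2 N`: there are a subfactor `P` of `N` and a unitary element `u` of `N` with `u P u* ⊆ P`,
  `tr (P u) = 0` for every faithful normal tracial state and `N = P + P u`. So `L²(N)` is the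
  orthogonal sum of `L²(P)` and `L²(P) u`, and the Jones index is `2`.

The theorem: if `M` and `N` are II_1 factors, `M` has property Gamma and the distance is less than
`1 / 100`, then `N` has an index 2 subfactor.
-/

set_option autoImplicit false

namespace Pool.Agent.Results.MP_323167_an.PropertyGamma

open Pool.Agent.H80.G2

theorem hCFC : T_CFC := Pool.Agent.H72.G2.pf_CFC
theorem hRNG : T_RNG := Pool.Agent.H35.G2.pf_RNG
theorem hDEN : T_DEN := Pool.Agent.H54.G2.pf_DEN
theorem hSTR : T_STR := Pool.Agent.H42.G2.pf_STR hDEN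
theorem hCMP : T_CMP := Pool.Agent.H30.G2.pf_CMP hDEN
theorem hUNS : T_UNS := Pool.Agent.H30.G2.pf_UNS hCFC
theorem hAVG : T_AVG := Pool.Agent.H42.G2.pf_AVG hCMP hUNS
theorem hAVU : T_AVU := Pool.Agent.H94.G2.pf_AVU hAVG
theorem hTRC : T_TRC := Pool.Agent.H60.G2.pf_TRC hAVG hSTR
theorem hSPG : T_SPG := Pool.Agent.H60.G2.pf_SPG
theorem hTRA : T_TRA := Pool.Agent.H39.G2.pf_TRA hTRC hSPG hUNS
theorem hCOM : T_COM := Pool.Agent.H41.G2.pf_COM
theorem hLAY : T_LAY := Pool.Agent.H10.G2.pf_LAY hCFC hRNG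
theorem hCUT : T_CUT := Pool.Agent.H10.G2.pf_CUT hLAY hCOM
theorem hSGN : T_SGN := Pool.Agent.H30.G2.pf_SGN hCFC hRNG
theorem hSTP : T_STP := Pool.Agent.H52.G2.pf_STP hSGN
theorem hDNS : T_DNS := Pool.Agent.H60.G2.pf_DNS
theorem hBLD : T_BLD := Pool.Agent.H74.G2.pf_BLD hSTP hAVU hDNS
theorem hLIM : T_LIM := Pool.Agent.H99.G2.pf_LIM hCMP
theorem hFIX : T_FIX := Pool.Agent.H60.G2.pf_FIX
theorem hFCT : T_FCT := Pool.Agent.H34.G2.pf_FCT
theorem hZPR : T_ZPR := Pool.Agent.H99.G2.pf_ZPR hCFC hRNG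
theorem hFCP : T_FCP := Pool.Agent.H60.G2.pf_FCP hFCT hZPR
theorem hPIS : T_PIS := Pool.Agent.H13.G2.pf_PIS hCFC hRNG
theorem hEXH : T_EXH := Pool.Agent.H46.G2.pf_EXH hCMP
theorem hUNM : T_UNM := Pool.Agent.H60.G2.pf_UNM hFCT hPIS hEXH

/-- Let `M` and `N` be II_1 factors on the same separable Hilbert space. If `M` has property Gamma
and the Kadison-Kastler distance of `M` and `N` is less than `1 / 100`, then `N` has an index 2
subfactor. -/
theorem result : ∀ (H : Type) [NormedAddCommGroup H] [InnerProductSpace ℂ H] [CompleteSpace H]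
    [TopologicalSpace.SeparableSpace H] (M N : VonNeumannAlgebra H), IsII1 M → IsII1 N →
    Gam M → Metric.hausdorffDist (bal M) (bal N) < 1 / 100 → Ind2 N :=
  pf_MAIN hTRC hTRA hCUT hBLD hLIM hFIX hFCP hUNM

end Pool.Agent.Results.MP_323167_an.PropertyGamma
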