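import Pool.Agent.H11.IX.CAY
import Pool.Agent.H60.IX.CE
import Pool.Agent.H47.IX.CNT
import Pool.Agent.H1.IX.CNV
import Pool.Agent.H20.IX.DNY
import Pool.Agent.H60.IX.F
import Pool.Agent.H17.IX.FCN
import Pool.Agent.H45.IX.FIN
import Pool.Agent.H11.IX.GEN
import Pool.Agent.H17.IX.IDX
import Pool.Agent.H46.IX.INT
import Pool.Agent.H39.IX.JNM
import Pool.Agent.H60.IX.KAP
import Pool.Agent.H43.IX.KAZ
import Pool.Agent.H20.IX.KZA
import Pool.Agent.H46.IX.KZB
import Pool.Agent.H39.IX.LBB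
import Pool.Agent.H38.IX.MAIN
import Pool.Agent.H46.IX.MN
import Pool.Agent.H89.IX.NPR
import Pool.Agent.H81.IX.NW2
import Pool.Agent.H79.IX.OPN
import Pool.Agent.H73.IX.ORN
import Pool.Agent.H74.IX.POL
import Pool.Agent.H47.IX.QPN
import Pool.Agent.H11.IX.RCM
import Pool.Agent.H81.IX.REL
import Pool.Agent.H79.IX.RMO
import Pool.Agent.H1.IX.RSV
import Pool.Agent.H45.IX.S4
import Pool.Agent.H77.IX.S5
import Pool.Agent.H11.IX.SCD
import Pool.Agent.H47.IX.SIT
import Pool.Agent.H45.IX.SPQ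
import Pool.Agent.H38.IX.SQP
import Pool.Agent.H47.IX.VEX
import Pool.Agent.H77.IX.W2X
import Pool.Agent.H79.IX.WKC
import Pool.Agent.H36.IX.WLB
import Pool.Agent.H42.G2.AVG
import Pool.Agent.H72.G2.CFC
import Pool.Agent.H30.G2.CMP
import Pool.Agent.H54.G2.DEN
import Pool.Agent.H42.G2.STR
import Pool.Agent.H30.G2.UNS

/-!
# MP_323167_an: index 2 subfactors of the II_1 factors near a factor with a regular hyperfinite algebra

All algebras are von Neumann algebras on a Hilbert space `H`, separable or not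
(`VonNeumannAlgebra H` of Mathlib: star subalgebras of the bounded operators which are equal to
their double commutant).

* `IsII1 M`: `M` is a II_1 factor (trivial centre, infinite-dimensional, with a faithful normal
  tracial state, given by vectors: `tr ξ x = ∑ ⟨ξ n, x ξ n⟩`).
* `Idx M P w`: `P` is a subfactor of `M`, `w` is a unitary element of `M` with `w P w* ⊆ P`,
  `tr (P w) = 0` and `M = P + P w`; so the Jones index is `2`. Every index 2 subfactor is of this
  form (Goldman).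
* `HF A`: `A` is generated by an increasing sequence of finite groups of unitary operators.
* `Nor P A u`: `u` is a unitary element of `P` with `u A u* ⊆ A` and `u* A u ⊆ A`. `Reg P A`: these
  elements generate the von Neumann algebra `P`.
* `Metric.hausdorffDist (bal M) (bal N)`: the Kadison-Kastler distance, the Hausdorff distance
  of the closed unit balls.
* `Ind2 N`: there are a subfactor `P` of `N` and a unitary element `u` of `N` with `u P u* ⊆ P`,
  `tr (P u) = 0` for every faithful normal tracial state and `N = P + P u`.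

The theorem: let `P` be an index 2 subfactor of `M`, and `A` a regular hyperfinite subalgebra of `P`
with `A' ∩ M ⊆ P`. Then every II_1 factor `N` at distance less than `10⁻⁹` of `M` has an index 2
subfactor.
-/

set_option autoImplicit false

namespace Pool.Agent.Results.MP_323167_an.RegularHyperfinite

open Pool.Agent.H80.G2 Pool.Agent.H39.IX

theorem hCFC : Pool.Agent.H80.G2.T_CFC := Pool.Agent.H72.G2.pf_CFC
theorem hDEN : Pool.Agent.H80.G2.T_DEN := Pool.Agent.H54.G2.pf_DEN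
theorem hSTR : Pool.Agent.H80.G2.T_STR := Pool.Agent.H42.G2.pf_STR hDEN
theorem hCMP : Pool.Agent.H80.G2.T_CMP := Pool.Agent.H30.G2.pf_CMP hDEN
theorem hUNS : Pool.Agent.H80.G2.T_UNS := Pool.Agent.H30.G2.pf_UNS hCFC
theorem hAVG : Pool.Agent.H80.G2.T_AVG := Pool.Agent.H42.G2.pf_AVG hCMP hUNS
theorem hCAY : T_CAY := Pool.Agent.H11.IX.pf_CAY
theorem hCNV : T_CNV := Pool.Agent.H1.IX.pf_CNV
theorem hDNY : T_DNY := Pool.Agent.H20.IX.pf_DNY
theorem hGEN : T_GEN := Pool.Agent.H11.IX.pf_GEN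
theorem hJNM : T_JNM := Pool.Agent.H39.IX.pf_JNM
theorem hNPR : T_NPR := Pool.Agent.H89.IX.pf_NPR
theorem hOPN : T_OPN := Pool.Agent.H79.IX.pf_OPN
theorem hPOL : T_POL := Pool.Agent.H74.IX.pf_POL
theorem hRCM : T_RCM := Pool.Agent.H11.IX.pf_RCM
theorem hRMO : T_RMO := Pool.Agent.H79.IX.pf_RMO
theorem hRSV : T_RSV := Pool.Agent.H1.IX.pf_RSV
theorem hSCD : T_SCD := Pool.Agent.H11.IX.pf_SCD hAVG hSTR
theorem hWLB : T_WLB := Pool.Agent.H36.IX.pf_WLB
theorem hCNT : T_CNT := Pool.Agent.H47.IX.pf_CNT hCNV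
theorem hFCN : T_FCN := Pool.Agent.H17.IX.pf_FCN hSCD
theorem hIDX : T_IDX := Pool.Agent.H17.IX.pf_IDX hOPN
theorem hKAP : T_KAP := Pool.Agent.H60.IX.pf_KAP hDNY hRSV hCAY
theorem hLBB : T_LBB := Pool.Agent.H39.IX.pf_LBB hRMO hJNM hRSV hCAY hCMP
theorem hMN : T_MN := Pool.Agent.H46.IX.pf_MN hWLB
theorem hQPN : T_QPN := Pool.Agent.H47.IX.pf_QPN hNPR hRCM hUNS
theorem hWKC : T_WKC := Pool.Agent.H79.IX.pf_WKC hSTR hWLB
theorem hCE : T_CE := Pool.Agent.H60.IX.pf_CE hLBB hOPN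
theorem hF : T_F := Pool.Agent.H60.IX.FF.pf_F hMN
theorem hINT : T_INT := Pool.Agent.H46.IX.pf_INT hMN hPOL
theorem hKZA : T_KZA := Pool.Agent.H20.IX.pf_KZA hMN hPOL
theorem hKZB : T_KZB := Pool.Agent.H46.IX.pf_KZB hKZA
theorem hORN : T_ORN := Pool.Agent.H73.IX.pf_ORN hIDX hCE hQPN
theorem hREL : T_REL := Pool.Agent.H81.IX.pf_REL hF hCE hQPN
theorem hS5 : T_S5 := Pool.Agent.H77.IX.pf_S5 hF hIDX hNPR hDNY hOPN
theorem hSQP : T_SQP := Pool.Agent.H38.IX.pf_SQP hNPR hQPN hKAP hS5 hWKC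
theorem hVEX : T_VEX := Pool.Agent.H47.IX.pf_VEX hNPR hINT
theorem hKAZ : T_KAZ := Pool.Agent.H43.IX.pf_KAZ hMN hPOL hKZB
theorem hNW2 : T_NW2 := Pool.Agent.H81.IX.pf_NW2 hQPN hINT hREL
theorem hS4 : T_S4 := Pool.Agent.H45.IX.pf_S4 hF hIDX hNPR hQPN hVEX hDNY hOPN
theorem hSPQ : T_SPQ := Pool.Agent.H45.IX.pf_SPQ hQPN hCE hS4
theorem hW2X : T_W2X := Pool.Agent.H77.IX.pf_W2X hKAZ hINT hQPN
theorem hFIN : T_FIN := Pool.Agent.H45.IX.pf_FIN hIDX hCE hS4 hQPN
theorem hSIT : T_SIT := Pool.Agent.H47.IX.pf_SIT hGEN hIDX hNPR hQPN hSQP hSPQ hFCN hW2X hNW2 hORN hFIN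
theorem hMAIN : Pool.Agent.H39.IX.T_MAIN := Pool.Agent.H38.IX.pf_MAIN hKAZ hCNV hCNT hSIT

/-- Let `M` and `N` be II_1 factors on the same Hilbert space, `P` an index 2 subfactor of `M` and
`A` a hyperfinite von Neumann subalgebra of `P` which is regular in `P` and has its relative
commutant in `M` inside `P`. If the Kadison-Kastler distance of `M` and `N` is less than
`1 / 1000000000`, then `N` has an index 2 subfactor. -/
theorem result : ∀ (H : Type) [NormedAddCommGroup H] [InnerProductSpace ℂ H] [CompleteSpace H]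
    (M N P A : VonNeumannAlgebra H) (w : H →L[ℂ] H), IsII1 M → IsII1 N → Idx M P w →
    (∀ x ∈ A, x ∈ P) → HF A → Reg P A → (∀ x ∈ M, (∀ a ∈ A, a * x = x * a) → x ∈ P) →
    Metric.hausdorffDist (bal M) (bal N) < 1 / 1000000000 → Ind2 N :=
  hMAIN

end Pool.Agent.Results.MP_323167_an.RegularHyperfinite
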